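import Pool.Agent.Lib.MP_69d199_co.Sharp.T9

/-!
# Grid minors in apex-minor-free graphs of bounded radius: the sharp bound `O(r √t + t)`
-/

set_option autoImplicit false

namespace Pool.Agent.Results.MP_69d199_co.SharpBound

open Pool.Agent.Lib.MP_69d199_co

/-- (1) Let `A` be an apex graph with `t` vertices, let `G` be a finite graph of radius at most `r`
without an `A`-minor, and let the `n × n` grid be a minor of `G`. Then `n ≤ 4500 (r √t + t)`.
(2) Every `n` counted by `N(t, r)` satisfies `n ≤ 4500 (r √t + t)`. -/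
theorem result :
    (∀ (V W : Type) [Fintype V] [Fintype W] (A : SimpleGraph V) (G : SimpleGraph W) (r n : ℕ),
      IsApex A → RadiusAtMost G r → ¬ IsMinor A G → IsMinor (grid n) G →
        (n : ℝ) ≤ 4500 * (r * Real.sqrt (Fintype.card V) + Fintype.card V)) ∧
    (∀ t r n : ℕ, n ∈ gridSizes t r → (n : ℝ) ≤ 4500 * (r * Real.sqrt t + t)) := by
  refine ⟨?_, fun t r n h => gridSizes_le t r n h⟩
  intro V W _ _ A G r n hA hG hnot hgrid
  by_contra hcon
  exact hnot (isMinor_of_sqrt A G r n hA hG hgrid (not_le.1 hcon))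

end Pool.Agent.Results.MP_69d199_co.SharpBound
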